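import Mathlib

/-!
# MP_7ef5a1_co: a vertex of minimum degree on no cycle of length four

The combinatorial core: the trace of a copy of `H` in the free amalgam of copies of `H - v0`.
-/

set_option autoImplicit false
open Classical

namespace Pool.Agent.Helper58.R4

/-- the trace of a copy of `H` in the free amalgam: `S` is the part in `W`, `lf` the leaf, `ps` the
position in the leaf, `rt T s` the position of `s` seen from the leaf `T` -/
structure Tr {m : ℕ} {L : Type} (H : SimpleGraph (Fin m)) (v0 : Fin m) (S : Finset (Fin m))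
    (lf : Fin m → L) (ps : Fin m → Fin m) (rt : L → Fin m → Fin m) : Prop where
  ind : ∀ x ∈ S, ∀ y ∈ S, ¬ H.Adj x y
  same : ∀ x y, x ∉ S → y ∉ S → H.Adj x y → lf x = lf y
  pv : ∀ x, x ∉ S → ps x ≠ v0
  pn : ∀ x, x ∉ S → ¬ H.Adj v0 (ps x)
  pinj : ∀ x y, x ∉ S → y ∉ S → lf x = lf y → ps x = ps y → x = y
  phom : ∀ x y, x ∉ S → y ∉ S → H.Adj x y → H.Adj (ps x) (ps y)
  rY : ∀ x s, x ∉ S → s ∈ S → H.Adj x s → H.Adj v0 (rt (lf x) s)
  rP : ∀ x s, x ∉ S → s ∈ S → H.Adj x s → H.Adj (ps x) (rt (lf x) s)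
  rinj : ∀ x y s s', x ∉ S → y ∉ S → lf x = lf y → s ∈ S → s' ∈ S → H.Adj x s → H.Adj y s' →
    rt (lf x) s = rt (lf x) s' → s = s'
  two : ∀ x, x ∉ S → ∃ y, y ∉ S ∧ lf y ≠ lf x
  ne : ∃ x, x ∉ S

/-- the vertices at distance at least three from `v0` -/
def Far {m : ℕ} (H : SimpleGraph (Fin m)) (v0 u : Fin m) : Prop :=
  u ≠ v0 ∧ ¬ H.Adj v0 u ∧ ∀ y, H.Adj v0 y → ¬ H.Adj u y

section

variable {m : ℕ} {L : Type} {H : SimpleGraph (Fin m)} {v0 : Fin m} {S : Finset (Fin m)}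
  {lf : Fin m → L} {ps : Fin m → Fin m} {rt : L → Fin m → Fin m} {d : ℕ}

/-- a vertex cannot have all its neighbours but one in the far part -/
theorem no_u (hdeg : ∀ x, d ≤ (Finset.univ.filter (fun u => H.Adj x u)).card)
    (hU : ∀ x, (Finset.univ.filter (fun u => H.Adj x u ∧ Far H v0 u)).card + 2 ≤ d) (z : Fin m)
    (h : ∀ w w', H.Adj z w → H.Adj z w' → ¬ Far H v0 w → ¬ Far H v0 w' → w = w') : False := by
  have h1 := hdeg z
  have h2 := hU z
  have h3 : (Finset.univ.filter (fun u => H.Adj z u ∧ ¬ Far H v0 u)).card ≤ 1 := by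
    rw [Finset.card_le_one]
    intro a ha b hb
    rw [Finset.mem_filter] at ha hb
    exact h a b ha.2.1 hb.2.1 ha.2.2 hb.2.2
  have h4 : Finset.univ.filter (fun u => H.Adj z u) ⊆
      Finset.univ.filter (fun u => H.Adj z u ∧ Far H v0 u) ∪
      Finset.univ.filter (fun u => H.Adj z u ∧ ¬ Far H v0 u) := by
    intro u hu
    rw [Finset.mem_filter] at hu
    rw [Finset.mem_union, Finset.mem_filter, Finset.mem_filter]
    by_cases hf : Far H v0 u
    · exact Or.inl ⟨hu.1, hu.2, hf⟩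
    · exact Or.inr ⟨hu.1, hu.2, hf⟩
  have h5 := (Finset.card_le_card h4).trans (Finset.card_union_le _ _)
  omega

/-- a vertex outside `S` has at most one neighbour in `S` -/
theorem Tr.one (hT : Tr H v0 S lf ps rt)
    (hno : ∀ z, z ≠ v0 → ∀ a b, H.Adj v0 a → H.Adj v0 b → H.Adj z a → H.Adj z b → a = b)
    (x s s' : Fin m) (hx : x ∉ S) (hs : s ∈ S) (hs' : s' ∈ S) (h : H.Adj x s) (h' : H.Adj x s') :
    s = s' := by
  refine hT.rinj x x s s' hx hx rfl hs hs' h h' ?_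
  exact hno (ps x) (hT.pv x hx) _ _ (hT.rY x s hx hs h) (hT.rY x s' hx hs' h')
    (hT.rP x s hx hs h) (hT.rP x s' hx hs' h')

/-- `v0` lies in `S` -/
theorem Tr.v0_mem (hT : Tr H v0 S lf ps rt)
    (htf : ∀ a b c, H.Adj a b → H.Adj b c → ¬ H.Adj a c)
    (hno : ∀ z, z ≠ v0 → ∀ a b, H.Adj v0 a → H.Adj v0 b → H.Adj z a → H.Adj z b → a = b)
    (hdeg : ∀ x, d ≤ (Finset.univ.filter (fun u => H.Adj x u)).card)
    (hU : ∀ x, (Finset.univ.filter (fun u => H.Adj x u ∧ Far H v0 u)).card + 2 ≤ d) :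
    v0 ∈ S := by
  by_contra hv
  have hone := hT.one hno
  obtain ⟨z0, hz0, hz0l⟩ := hT.two v0 hv
  have hf1 : ∀ x, x ∉ S → lf x ≠ lf v0 → x ≠ v0 ∧ ¬ H.Adj v0 x := by
    intro x hx hl
    refine ⟨fun h => hl (by rw [h]), fun h => hl (hT.same v0 x hv hx h).symm⟩
  have hf2 : ∀ x y, x ∉ S → lf x ≠ lf v0 → H.Adj v0 y → H.Adj x y → y ∈ S := by
    intro x y hx hl hy hxy
    by_contra hyS
    exact hl ((hT.same x y hx hyS hxy).trans (hT.same v0 y hv hyS hy).symm)
  by_cases hc : ∃ z y, z ∉ S ∧ lf z ≠ lf v0 ∧ y ∈ S ∧ H.Adj v0 y ∧ H.Adj z y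
  · obtain ⟨z, y0, hz, hzl, hy0, hvy, hzy⟩ := hc
    apply no_u hdeg hU z
    have key : ∀ w, H.Adj z w → ¬ Far H v0 w → w = y0 := by
      intro w hw hwF
      by_contra hne
      by_cases hwS : w ∈ S
      · exact hne (hone z w y0 hz hwS hy0 hw hzy)
      · apply hwF
        have hwl : lf w ≠ lf v0 := by
          rw [← hT.same z w hz hwS hw]
          exact hzl
        refine ⟨(hf1 w hwS hwl).1, (hf1 w hwS hwl).2, fun y hy hwy => ?_⟩
        have hyS := hf2 w y hwS hwl hy hwy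
        have : y = y0 := hone v0 y y0 hv hyS hy0 hy hvy
        rw [this] at hwy
        exact htf z w y0 hw hwy hzy
    intro w w' hw hw' hF hF'
    rw [key w hw hF, key w' hw' hF']
  · push Not at hc
    have hall : ∀ x, x ∉ S → lf x ≠ lf v0 → Far H v0 x := by
      intro x hx hl
      refine ⟨(hf1 x hx hl).1, (hf1 x hx hl).2, fun y hy hxy => ?_⟩
      exact hc x y hx hl (hf2 x y hx hl hy hxy) hy hxy
    apply no_u hdeg hU z0
    have key : ∀ w, H.Adj z0 w → ¬ Far H v0 w → w ∈ S := by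
      intro w hw hwF
      by_contra hwS
      apply hwF
      refine hall w hwS ?_
      rw [← hT.same z0 w hz0 hwS hw]
      exact hz0l
    intro w w' hw hw' hF hF'
    exact hone z0 w w' hz0 (key w hw hF) (key w' hw' hF') hw hw'

/-- the hypotheses of the core theorem -/
structure Hy {m : ℕ} (H : SimpleGraph (Fin m)) (v0 : Fin m) (d : ℕ) : Prop where
  tf : ∀ a b c, H.Adj a b → H.Adj b c → ¬ H.Adj a c
  no : ∀ z, z ≠ v0 → ∀ a b, H.Adj v0 a → H.Adj v0 b → H.Adj z a → H.Adj z b → a = b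
  deg : ∀ x, d ≤ (Finset.univ.filter (fun u => H.Adj x u)).card
  far : ∀ x, (Finset.univ.filter (fun u => H.Adj x u ∧ Far H v0 u)).card + 2 ≤ d

theorem Tr.mem (hT : Tr H v0 S lf ps rt) (hH : Hy H v0 d) : v0 ∈ S :=
  hT.v0_mem hH.tf hH.no hH.deg hH.far

theorem Tr.yS (hT : Tr H v0 S lf ps rt) (hH : Hy H v0 d) (y : Fin m) (hy : H.Adj v0 y) : y ∉ S :=
  fun h => hT.ind v0 (hT.mem hH) y h hy

theorem Tr.farS (hT : Tr H v0 S lf ps rt) (hH : Hy H v0 d) (s : Fin m) (hs : s ∈ S)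
    (hv : s ≠ v0) : Far H v0 s := by
  refine ⟨hv, hT.ind v0 (hT.mem hH) s hs, fun y hy hsy => ?_⟩
  exact hv (hT.one hH.no y s v0 (hT.yS hH y hy) hs (hT.mem hH) hsy.symm hy.symm)

/-- every leaf contains a neighbour of `v0` -/
theorem Tr.hasY (hT : Tr H v0 S lf ps rt) (hH : Hy H v0 d) (z : Fin m) (hz : z ∉ S) :
    ∃ y, H.Adj v0 y ∧ lf y = lf z := by
  by_contra hcon
  push Not at hcon
  have hall : ∀ x, x ∉ S → lf x = lf z → Far H v0 x := by
    intro x hx hl
    refine ⟨fun h => hx (h ▸ hT.mem hH), fun h => hcon x h hl, fun y hy hxy => ?_⟩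
    exact hcon y hy ((hT.same x y hx (hT.yS hH y hy) hxy).symm.trans hl)
  apply no_u hH.deg hH.far z
  have key : ∀ w, H.Adj z w → Far H v0 w := by
    intro w hw
    by_cases hwS : w ∈ S
    · refine hT.farS hH w hwS ?_
      rintro rfl
      exact hcon z hw.symm rfl
    · exact hall w hwS (hT.same z w hz hwS hw).symm
  intro w w' hw hw' hF _
  exact absurd (key w hw) hF

/-- the root position is a neighbour of `v0` -/
theorem Tr.vT (hT : Tr H v0 S lf ps rt) (hH : Hy H v0 d) (z : Fin m) (hz : z ∉ S) :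
    H.Adj v0 (rt (lf z) v0) := by
  obtain ⟨y, hy, hl⟩ := hT.hasY hH z hz
  rw [← hl]
  exact hT.rY y v0 (hT.yS hH y hy) (hT.mem hH) hy.symm

theorem Tr.psv (hT : Tr H v0 S lf ps rt) (hH : Hy H v0 d) (y : Fin m) (hy : H.Adj v0 y) :
    H.Adj (ps y) (rt (lf y) v0) :=
  hT.rP y v0 (hT.yS hH y hy) (hT.mem hH) hy.symm

/-- a vertex with position in `S` has no neighbour in `S` -/
theorem Tr.xS (hT : Tr H v0 S lf ps rt) (hH : Hy H v0 d) (x s : Fin m) (hx : x ∉ S)
    (hp : ps x ∈ S) (hs : s ∈ S) : ¬ H.Adj x s := by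
  intro h
  exact (hT.farS hH (ps x) hp (hT.pv x hx)).2.2 _ (hT.rY x s hx hs h) (hT.rP x s hx hs h)

/-- the orbit of `v0` leaves the leaf -/
theorem Tr.key (hT : Tr H v0 S lf ps rt) (hH : Hy H v0 d) (z : Fin m) (hz : z ∉ S) :
    lf (rt (lf z) v0) ≠ lf z := by
  intro hl
  obtain ⟨T, hTd⟩ : ∃ T, T = lf z := ⟨_, rfl⟩
  obtain ⟨a, ha0, ha⟩ : ∃ a : ℕ → Fin m, a 0 = rt T v0 ∧ ∀ i, a (i + 1) = ps (a i) :=
    ⟨fun i => ps^[i] (rt T v0), rfl, fun i => Function.iterate_succ_apply' ps i _⟩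
  have hv1 : H.Adj v0 (a 0) := by
    rw [ha0, hTd]
    exact hT.vT hH z hz
  have hstep : ∀ x, x ∉ S → lf x = T → H.Adj x (ps x) → ps x ∉ S ∧ lf (ps x) = T := by
    intro x hx hlx hxp
    have h1 : ps x ∉ S := fun h => hT.xS hH x (ps x) hx h h hxp
    exact ⟨h1, by rw [← hT.same x (ps x) hx h1 hxp, hlx]⟩
  have hmain : ∀ i, a i ∉ S ∧ lf (a i) = T ∧ H.Adj (a i) (a (i + 1)) := by
    intro i
    induction i with
    | zero =>
      have h1 : a 0 ∉ S := hT.yS hH _ hv1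
      have h2 : lf (a 0) = T := by rw [ha0, hTd]; exact hl
      refine ⟨h1, h2, ?_⟩
      rw [ha 0]
      have h3 := hT.psv hH (a 0) hv1
      rw [h2, ← ha0] at h3
      exact h3.symm
    | succ i ih =>
      obtain ⟨h1, h2, h3⟩ := ih
      have h4 := h3
      rw [ha i] at h4
      obtain ⟨h5, h6⟩ := hstep (a i) h1 h2 h4
      rw [← ha i] at h5 h6
      refine ⟨h5, h6, ?_⟩
      rw [ha (i + 1)]
      have h7 := hT.phom (a i) (a (i + 1)) h1 h5 h3
      rw [← ha i] at h7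
      exact h7
  have hinj : ∀ i j, i < j → a i ≠ a j := by
    intro i
    induction i with
    | zero =>
      intro j hj h
      obtain ⟨j', rfl⟩ : ∃ j', j = j' + 1 := ⟨j - 1, by omega⟩
      rw [ha j'] at h
      rw [h] at hv1
      exact hT.pn (a j') (hmain j').1 hv1
    | succ i ih =>
      intro j hj h
      obtain ⟨j', rfl⟩ : ∃ j', j = j' + 1 := ⟨j - 1, by omega⟩
      rw [ha i, ha j'] at h
      exact ih j' (by omega) (hT.pinj (a i) (a j') (hmain i).1 (hmain j').1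
        ((hmain i).2.1.trans (hmain j').2.1.symm) h)
  have hinj' : Function.Injective a := by
    intro i j h
    by_contra hne
    rcases Nat.lt_or_gt_of_ne hne with hlt | hlt
    · exact hinj i j hlt h
    · exact hinj j i hlt h.symm
  exact not_injective_infinite_finite a hinj'

/-- the neighbours of `v0` are mapped into the next leaf -/
theorem Tr.yF (hT : Tr H v0 S lf ps rt) (hH : Hy H v0 d) (y : Fin m) (hy : H.Adj v0 y) :
    ps y ∉ S ∧ lf (ps y) = lf (rt (lf y) v0) := by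
  have hyS := hT.yS hH y hy
  have h1 : ps y ∉ S := fun h => hT.xS hH y v0 hyS h (hT.mem hH) hy.symm
  exact ⟨h1, hT.same _ _ h1 (hT.yS hH _ (hT.vT hH y hyS)) (hT.psv hH y hy)⟩

/-- every vertex of a leaf is mapped into `S` or into the next leaf -/
theorem Tr.gE (hT : Tr H v0 S lf ps rt) (hH : Hy H v0 d) (z : Fin m) (hz : z ∉ S)
    (hp : ps z ∉ S) : lf (ps z) = lf (rt (lf z) v0) := by
  by_contra hG
  obtain ⟨T, hTd⟩ : ∃ T, T = lf z := ⟨_, rfl⟩
  rw [← hTd] at hG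
  have hfar : ∀ x, x ∉ S → lf x = T → ps x ∉ S → lf (ps x) ≠ lf (rt T v0) → Far H v0 x := by
    intro x hx hlx hpx hGx
    refine ⟨fun h => hx (h ▸ hT.mem hH), fun h => ?_, fun y hy hxy => ?_⟩
    · apply hGx
      rw [← hlx]
      exact (hT.yF hH x h).2
    · have hyS := hT.yS hH y hy
      have hly := hT.same x y hx hyS hxy
      obtain ⟨h1, h2⟩ := hT.yF hH y hy
      apply hGx
      rw [hT.same _ _ hpx h1 (hT.phom x y hx hyS hxy), h2, ← hly, hlx]
  have hzF := hfar z hz hTd.symm hp hG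
  apply no_u hH.deg hH.far z
  have key : ∀ w, H.Adj z w → ¬ Far H v0 w → w ∉ S ∧ ps w ∈ S := by
    intro w hw hwF
    have hwS : w ∉ S := by
      intro h
      apply hwF
      refine hT.farS hH w h ?_
      rintro rfl
      exact hzF.2.1 hw.symm
    refine ⟨hwS, ?_⟩
    by_contra hpw
    apply hwF
    refine hfar w hwS ((hT.same z w hz hwS hw).symm.trans hTd.symm) hpw ?_
    rw [← hT.same _ _ hp hpw (hT.phom z w hz hwS hw)]
    exact hG
  intro w w' hw hw' hF hF'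
  obtain ⟨h1, h2⟩ := key w hw hF
  obtain ⟨h1', h2'⟩ := key w' hw' hF'
  have h3 : ps w = ps w' := hT.one hH.no (ps z) (ps w) (ps w') hp h2 h2'
    (hT.phom z w hz h1 hw) (hT.phom z w' hz h1' hw')
  exact hT.pinj w w' h1 h1' ((hT.same z w hz h1 hw).symm.trans (hT.same z w' hz h1' hw')) h3

/-- the size of a leaf -/
noncomputable def sE (S : Finset (Fin m)) (lf : Fin m → L) (T : L) : Finset (Fin m) :=
  Finset.univ.filter (fun x => x ∉ S ∧ lf x = T)

/-- the neighbours of `v0` in a leaf -/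
noncomputable def sY (H : SimpleGraph (Fin m)) (v0 : Fin m) (lf : Fin m → L) (T : L) :
    Finset (Fin m) :=
  Finset.univ.filter (fun y => H.Adj v0 y ∧ lf y = T)

/-- the neighbours in `S` of a leaf -/
noncomputable def sN (H : SimpleGraph (Fin m)) (S : Finset (Fin m)) (lf : Fin m → L) (T : L) :
    Finset (Fin m) :=
  S.filter (fun s => ∃ x, x ∉ S ∧ lf x = T ∧ H.Adj x s)

theorem Tr.cN (hT : Tr H v0 S lf ps rt) (hH : Hy H v0 d) (z : Fin m) :
    (sN H S lf (lf z)).card ≤ (sY H v0 lf (lf (rt (lf z) v0))).card := by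
  apply Finset.card_le_card_of_injOn (rt (lf z))
  · intro s hs
    obtain ⟨hs, x, hx, hl, hxs⟩ := Finset.mem_filter.1 hs
    have h1 := hT.rY x s hx hs hxs
    have h2 := hT.rP x s hx hs hxs
    have h3 : ps x ∉ S := fun h => hT.xS hH x s hx h hs hxs
    have h4 := hT.gE hH x hx h3
    rw [hl] at h1 h2 h4
    rw [Finset.mem_coe]
    refine Finset.mem_filter.2 ⟨Finset.mem_univ _, h1, ?_⟩
    rw [← hT.same _ _ h3 (hT.yS hH _ h1) h2, h4]
  · intro s hs s' hs' h
    obtain ⟨hs, x, hx, hl, hxs⟩ := Finset.mem_filter.1 hs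
    obtain ⟨hs', x', hx', hl', hxs'⟩ := Finset.mem_filter.1 hs'
    refine hT.rinj x x' s s' hx hx' (hl.trans hl'.symm) hs hs' hxs hxs' ?_
    rw [hl]
    exact h

theorem Tr.cX (hT : Tr H v0 S lf ps rt) (hH : Hy H v0 d) (z : Fin m) (hz : z ∉ S) :
    ((sE S lf (lf z)).filter (fun x => ps x ∈ S)).card + 1 ≤
      (sN H S lf (lf (rt (lf z) v0))).card := by
  have hvz := hT.vT hH z hz
  have hvS := hT.yS hH _ hvz
  have hv0 : v0 ∈ sN H S lf (lf (rt (lf z) v0)) :=
    Finset.mem_filter.2 ⟨hT.mem hH, _, hvS, rfl, hvz.symm⟩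
  have h1 : ((sE S lf (lf z)).filter (fun x => ps x ∈ S)).card ≤
      ((sN H S lf (lf (rt (lf z) v0))).erase v0).card := by
    apply Finset.card_le_card_of_injOn ps
    · intro x hx
      obtain ⟨hx, hp⟩ := Finset.mem_filter.1 hx
      obtain ⟨_, hxS, hl⟩ := Finset.mem_filter.1 hx
      rw [Finset.mem_coe, Finset.mem_erase]
      refine ⟨hT.pv x hxS, ?_⟩
      have h2 : 0 < (Finset.univ.filter (fun u => H.Adj x u)).card := by
        have h3 := hH.deg x
        have h4 := hH.far x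
        omega
      obtain ⟨w, hw⟩ := Finset.card_pos.1 h2
      have hw := (Finset.mem_filter.1 hw).2
      have hwS : w ∉ S := fun h => hT.xS hH x w hxS hp h hw
      have hwl := hT.same x w hxS hwS hw
      have hpw : ps w ∉ S := fun h => hT.ind _ hp _ h (hT.phom x w hxS hwS hw)
      refine Finset.mem_filter.2 ⟨hp, ps w, hpw, ?_, (hT.phom x w hxS hwS hw).symm⟩
      rw [hT.gE hH w hwS hpw, ← hwl, hl]
    · intro x hx x' hx' h
      obtain ⟨hx, hp⟩ := Finset.mem_filter.1 hx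
      obtain ⟨_, hxS, hl⟩ := Finset.mem_filter.1 hx
      obtain ⟨hx', hp'⟩ := Finset.mem_filter.1 hx'
      obtain ⟨_, hxS', hl'⟩ := Finset.mem_filter.1 hx'
      exact hT.pinj x x' hxS hxS' (hl.trans hl'.symm) h
  rw [Finset.card_erase_of_mem hv0] at h1
  have h5 := Finset.card_pos.2 ⟨v0, hv0⟩
  omega

theorem Tr.cE (hT : Tr H v0 S lf ps rt) (hH : Hy H v0 d) (z : Fin m) :
    (sE S lf (lf z)).card + (sY H v0 lf (lf (rt (lf z) v0))).card ≤
      (sE S lf (lf (rt (lf z) v0))).card +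
        ((sE S lf (lf z)).filter (fun x => ps x ∈ S)).card := by
  have hYE : sY H v0 lf (lf (rt (lf z) v0)) ⊆ sE S lf (lf (rt (lf z) v0)) := by
    intro y hy
    obtain ⟨_, hy, hl⟩ := Finset.mem_filter.1 hy
    exact Finset.mem_filter.2 ⟨Finset.mem_univ _, hT.yS hH y hy, hl⟩
  have h1 : ((sE S lf (lf z)).filter (fun x => ¬ ps x ∈ S)).card ≤
      (sE S lf (lf (rt (lf z) v0)) \ sY H v0 lf (lf (rt (lf z) v0))).card := by
    apply Finset.card_le_card_of_injOn ps
    · intro x hx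
      obtain ⟨hx, hp⟩ := Finset.mem_filter.1 hx
      obtain ⟨_, hxS, hl⟩ := Finset.mem_filter.1 hx
      rw [Finset.mem_coe, Finset.mem_sdiff]
      refine ⟨Finset.mem_filter.2 ⟨Finset.mem_univ _, hp, ?_⟩, fun h => ?_⟩
      · rw [hT.gE hH x hxS hp, hl]
      · exact hT.pn x hxS (Finset.mem_filter.1 h).2.1
    · intro x hx x' hx' h
      obtain ⟨hx, hp⟩ := Finset.mem_filter.1 hx
      obtain ⟨_, hxS, hl⟩ := Finset.mem_filter.1 hx
      obtain ⟨hx', hp'⟩ := Finset.mem_filter.1 hx'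
      obtain ⟨_, hxS', hl'⟩ := Finset.mem_filter.1 hx'
      exact hT.pinj x x' hxS hxS' (hl.trans hl'.symm) h
  rw [Finset.card_sdiff_of_subset hYE] at h1
  have h2 := Finset.card_filter_add_card_filter_not (s := sE S lf (lf z)) (fun x => ps x ∈ S)
  have h3 := Finset.card_le_card hYE
  omega

/-- the core theorem: there is no trace -/
theorem Tr.false (hT : Tr H v0 S lf ps rt) (hH : Hy H v0 d) : False := by
  obtain ⟨z0, hz0⟩ := hT.ne
  obtain ⟨z, hz, hmax⟩ := Finset.exists_max_image (Finset.univ.filter (fun x => x ∉ S))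
    (fun z => (sE S lf (lf z)).card + (sY H v0 lf (lf (rt (lf z) v0))).card)
    ⟨z0, Finset.mem_filter.2 ⟨Finset.mem_univ _, hz0⟩⟩
  have hz := (Finset.mem_filter.1 hz).2
  have hy := hT.yS hH _ (hT.vT hH z hz)
  have h1 := hmax _ (Finset.mem_filter.2 ⟨Finset.mem_univ _, hy⟩)
  have h2 := hT.cE hH z
  have h3 := hT.cX hH z hz
  have h4 := hT.cN hH (rt (lf z) v0)
  omega

end

end Pool.Agent.Helper58.R4
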