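import Pool.Agent.Helper77.SND.Stmts

/-!
# MP_7ef5a1_co: the host for a vertex whose neighbourhood lies in a maximum independent set
-/

set_option autoImplicit false
open Classical

namespace Pool.Agent.Helper58.R4

/-- a complete graph on the complement of `I + v0`, completely joined to `k` independent
vertices -/
def cmx {m : ℕ} (k : ℕ) (I : Finset (Fin m)) (v0 : Fin m) :
    SimpleGraph (Fin k ⊕ {x : Fin m // x ∉ insert v0 I}) where
  Adj a b := a ≠ b ∧ (a.isRight = true ∨ b.isRight = true)
  symm := ⟨fun _ _ h => ⟨h.1.symm, h.2.symm⟩⟩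
  loopless := ⟨fun _ h => h.1 rfl⟩

theorem crit_of_ind {m : ℕ} (H : SimpleGraph (Fin m)) (hd : 1 ≤ H.minDegree) (v0 : Fin m)
    (hv0 : H.degree v0 = H.minDegree) (I : Finset (Fin m))
    (hI : ∀ x ∈ I, ∀ y ∈ I, ¬ H.Adj x y) (hc : I.card ≤ 2 * (H.minDegree - 1) + 1)
    (hmax : I.card = 2 * (H.minDegree - 1) + 1 ∨
      ∀ J : Finset (Fin m), (∀ x ∈ J, ∀ y ∈ J, ¬ H.Adj x y) → J.card ≤ I.card)
    (hN : ∀ u, H.Adj v0 u → u ∈ I) : Pool.Agent.Helper77.SND.Crit H := by
  obtain ⟨k, hk⟩ : ∃ k, k = 2 * (H.minDegree - 1) + 1 := ⟨_, rfl⟩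
  have hvI : v0 ∉ I := by
    intro h
    have h1 : 0 < (H.neighborFinset v0).card := by
      rw [SimpleGraph.card_neighborFinset_eq_degree]; omega
    obtain ⟨u, hu⟩ := Finset.card_pos.1 h1
    rw [SimpleGraph.mem_neighborFinset] at hu
    exact hI v0 h u (hN u hu) hu
  unfold Pool.Agent.Helper77.SND.Crit
  rw [← hk] at hc hmax ⊢
  refine ⟨Fin k ⊕ {x : Fin m // x ∉ insert v0 I}, inferInstance, cmx k I v0, Sum.inl,
    Sum.inl_injective, ?_, ?_, ?_⟩
  · intro i j h
    rcases h.2 with h | h <;> simp at h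
  · rintro f ⟨hf, hfa⟩
    obtain ⟨S, hS⟩ : ∃ S : Finset (Fin m), ∀ x, x ∈ S ↔ ∃ i, f x = Sum.inl i :=
      ⟨Finset.univ.filter (fun x => ∃ i, f x = Sum.inl i), fun x => by simp⟩
    have hSi : ∀ x ∈ S, ∀ y ∈ S, ¬ H.Adj x y := by
      intro x hx y hy hxy
      obtain ⟨i, hi⟩ := (hS x).1 hx
      obtain ⟨j, hj⟩ := (hS y).1 hy
      have h := (hfa x y hxy).2
      rw [hi, hj] at h
      rcases h with h | h <;> simp at h
    have hSk : S.card ≤ k := by
      have h1 : S.card ≤ ((Finset.univ : Finset (Fin k)).image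
          (Sum.inl : Fin k → Fin k ⊕ {x : Fin m // x ∉ insert v0 I})).card := by
        apply Finset.card_le_card_of_injOn f
        · intro x hx
          obtain ⟨i, hi⟩ := (hS x).1 hx
          rw [hi]
          exact Finset.mem_coe.2 (Finset.mem_image_of_mem _ (Finset.mem_univ _))
        · intro a _ b _ h
          exact hf h
      refine h1.trans (Finset.card_image_le.trans ?_)
      simp
    have hSc : Sᶜ.card + (I.card + 1) ≤ m := by
      have h1 : Sᶜ.card ≤ ((insert v0 I)ᶜ : Finset (Fin m)).card := by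
        have h2 : Sᶜ.card ≤ ((Finset.univ : Finset {x : Fin m // x ∉ insert v0 I}).image
            (Sum.inr : _ → Fin k ⊕ {x : Fin m // x ∉ insert v0 I})).card := by
          apply Finset.card_le_card_of_injOn f
          · intro x hx
            rw [Finset.mem_coe, Finset.mem_compl] at hx
            cases h : f x with
            | inl i => exact absurd ((hS x).2 ⟨i, h⟩) hx
            | inr z => exact Finset.mem_coe.2 (Finset.mem_image_of_mem _ (Finset.mem_univ _))
          · intro a _ b _ h
            exact hf h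
        refine h2.trans (Finset.card_image_le.trans ?_)
        rw [Finset.card_univ, Fintype.card_subtype]
        apply Finset.card_le_card
        intro x hx
        rw [Finset.mem_filter] at hx
        exact Finset.mem_compl.2 hx.2
      rw [Finset.card_compl (insert v0 I), Finset.card_insert_of_notMem hvI,
        Fintype.card_fin] at h1
      have h3 := Finset.card_le_univ (insert v0 I)
      rw [Finset.card_insert_of_notMem hvI, Fintype.card_fin] at h3
      omega
    have h4 := Finset.card_add_card_compl S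
    rw [Fintype.card_fin] at h4
    rcases hmax with h | h
    · omega
    · have := h S hSi
      omega
  · intro T hT
    have hNc : (H.neighborFinset v0).card = T.card := by
      rw [SimpleGraph.card_neighborFinset_eq_degree, hv0, hT]
    have hNI : H.neighborFinset v0 ⊆ I := by
      intro x hx
      exact hN x ((SimpleGraph.mem_neighborFinset _ _ _).1 hx)
    have h1 : Fintype.card {x // x ∈ H.neighborFinset v0} ≤ Fintype.card {x // x ∈ T} := by
      rw [Fintype.card_coe, Fintype.card_coe, hNc]
    have h2 : Fintype.card {x // x ∈ I \ H.neighborFinset v0} ≤ Fintype.card {x // x ∈ Tᶜ} := by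
      rw [Fintype.card_coe, Fintype.card_coe, Finset.card_sdiff_of_subset hNI,
        Finset.card_compl, Fintype.card_fin]
      omega
    obtain ⟨j1⟩ := Function.Embedding.nonempty_of_card_le h1
    obtain ⟨j2⟩ := Function.Embedding.nonempty_of_card_le h2
    have hex : ∀ x : Fin m, ∃ r : Option (Fin k ⊕ {x : Fin m // x ∉ insert v0 I}),
        (x = v0 → r = none) ∧
        (∀ h : x ∈ H.neighborFinset v0, r = some (Sum.inl (j1 ⟨x, h⟩).1)) ∧
        (∀ h : x ∈ I \ H.neighborFinset v0, r = some (Sum.inl (j2 ⟨x, h⟩).1)) ∧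
        ∀ h : x ∉ insert v0 I, r = some (Sum.inr ⟨x, h⟩) := by
      intro x
      by_cases hx0 : x = v0
      · subst hx0
        exact ⟨none, fun _ => rfl, fun h => absurd (hNI h) hvI,
          fun h => absurd (Finset.mem_sdiff.1 h).1 hvI,
          fun h => absurd (Finset.mem_insert_self _ _) h⟩
      by_cases hxN : x ∈ H.neighborFinset v0
      · exact ⟨some (Sum.inl (j1 ⟨x, hxN⟩).1), fun h => absurd h hx0, fun _ => rfl,
          fun h => absurd hxN (Finset.mem_sdiff.1 h).2,
          fun h => absurd (Finset.mem_insert_of_mem (hNI hxN)) h⟩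
      by_cases hxI : x ∈ I \ H.neighborFinset v0
      · exact ⟨some (Sum.inl (j2 ⟨x, hxI⟩).1), fun h => absurd h hx0, fun h => absurd h hxN,
          fun _ => rfl, fun h => absurd (Finset.mem_insert_of_mem (Finset.mem_sdiff.1 hxI).1) h⟩
      have hxO : x ∉ insert v0 I := by
        rw [Finset.mem_insert, not_or]
        exact ⟨hx0, fun h => hxI (Finset.mem_sdiff.2 ⟨h, hxN⟩)⟩
      exact ⟨some (Sum.inr ⟨x, hxO⟩), fun h => absurd h hx0, fun h => absurd h hxN,
        fun h => absurd h hxI, fun _ => rfl⟩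
    choose f hf0 hfN hfI hfO using hex
    have hcase : ∀ x, x = v0 ∨ x ∈ H.neighborFinset v0 ∨ x ∈ I \ H.neighborFinset v0 ∨
        x ∉ insert v0 I := by
      intro x
      by_cases hx0 : x = v0
      · exact Or.inl hx0
      by_cases hxN : x ∈ H.neighborFinset v0
      · exact Or.inr (Or.inl hxN)
      by_cases hxI : x ∈ I \ H.neighborFinset v0
      · exact Or.inr (Or.inr (Or.inl hxI))
      refine Or.inr (Or.inr (Or.inr ?_))
      rw [Finset.mem_insert, not_or]
      exact ⟨hx0, fun h => hxI (Finset.mem_sdiff.2 ⟨h, hxN⟩)⟩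
    have hne : ∀ (a : {x // x ∈ H.neighborFinset v0}) (b : {x // x ∈ I \ H.neighborFinset v0}),
        (j1 a).1 ≠ (j2 b).1 := by
      intro a b h
      have h3 := (j1 a).2
      have h4 := Finset.mem_compl.1 (j2 b).2
      rw [h] at h3
      exact h4 h3
    refine ⟨f, ?_, ?_⟩
    · intro x y hxy
      rcases hcase x with hx | hx | hx | hx <;> rcases hcase y with hy | hy | hy | hy
      · rw [hx, hy]
      · rw [hf0 x hx, hfN y hy] at hxy; simp at hxy
      · rw [hf0 x hx, hfI y hy] at hxy; simp at hxy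
      · rw [hf0 x hx, hfO y hy] at hxy; simp at hxy
      · rw [hfN x hx, hf0 y hy] at hxy; simp at hxy
      · rw [hfN x hx, hfN y hy] at hxy
        have h3 := Sum.inl.inj (Option.some.inj hxy)
        exact congrArg Subtype.val (j1.injective (Subtype.ext h3))
      · rw [hfN x hx, hfI y hy] at hxy
        exact absurd (Sum.inl.inj (Option.some.inj hxy)) (hne _ _)
      · rw [hfN x hx, hfO y hy] at hxy; simp at hxy
      · rw [hfI x hx, hf0 y hy] at hxy; simp at hxy
      · rw [hfI x hx, hfN y hy] at hxy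
        exact absurd (Sum.inl.inj (Option.some.inj hxy)).symm (hne _ _)
      · rw [hfI x hx, hfI y hy] at hxy
        have h3 := Sum.inl.inj (Option.some.inj hxy)
        exact congrArg Subtype.val (j2.injective (Subtype.ext h3))
      · rw [hfI x hx, hfO y hy] at hxy; simp at hxy
      · rw [hfO x hx, hf0 y hy] at hxy; simp at hxy
      · rw [hfO x hx, hfN y hy] at hxy; simp at hxy
      · rw [hfO x hx, hfI y hy] at hxy; simp at hxy
      · rw [hfO x hx, hfO y hy] at hxy
        exact congrArg Subtype.val (Sum.inr.inj (Option.some.inj hxy))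
    · intro x y hxy
      have hnv : ∀ u, H.Adj v0 u → ∃ q ∈ T, f u = some (Sum.inl q) := by
        intro u hu
        have hu' : u ∈ H.neighborFinset v0 := (SimpleGraph.mem_neighborFinset _ _ _).2 hu
        exact ⟨_, (j1 ⟨u, hu'⟩).2, hfN u hu'⟩
      by_cases hx0 : x = v0
      · obtain ⟨q, hq, hq2⟩ := hnv y (hx0 ▸ hxy)
        rw [hf0 x hx0, hq2]
        exact ⟨q, hq, rfl⟩
      by_cases hy0 : y = v0
      · obtain ⟨q, hq, hq2⟩ := hnv x (hy0 ▸ hxy.symm)
        rw [hf0 y hy0, hq2]
        exact ⟨q, hq, rfl⟩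
      have hin : ∀ x, x ≠ v0 → x ∈ I → ∃ q, f x = some (Sum.inl q) := by
        intro x _ hxI
        by_cases hxN : x ∈ H.neighborFinset v0
        · exact ⟨_, hfN x hxN⟩
        · exact ⟨_, hfI x (Finset.mem_sdiff.2 ⟨hxI, hxN⟩)⟩
      by_cases hxI : x ∈ I
      · have hyO : y ∉ insert v0 I := by
          rw [Finset.mem_insert, not_or]
          exact ⟨hy0, fun h => hI x hxI y h hxy⟩
        obtain ⟨q, hq⟩ := hin x hx0 hxI
        rw [hq, hfO y hyO]
        exact ⟨by simp, Or.inr rfl⟩
      · have hxO : x ∉ insert v0 I := by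
          rw [Finset.mem_insert, not_or]
          exact ⟨hx0, hxI⟩
        by_cases hyI : y ∈ I
        · obtain ⟨q, hq⟩ := hin y hy0 hyI
          rw [hq, hfO x hxO]
          exact ⟨by simp, Or.inl rfl⟩
        · have hyO : y ∉ insert v0 I := by
            rw [Finset.mem_insert, not_or]
            exact ⟨hy0, hyI⟩
          rw [hfO x hxO, hfO y hyO]
          refine ⟨fun h => hxy.ne ?_, Or.inl rfl⟩
          exact congrArg Subtype.val (Sum.inr.inj h)

end Pool.Agent.Helper58.R4
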