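import Pool.Agent.Helper28.RS.Sup
import Pool.Agent.Helper58.R4.Core

/-!
# MP_7ef5a1_co: the trace of a copy of `H` in the free amalgam
-/

set_option autoImplicit false
open Classical

namespace Pool.Agent.Helper58.R4

open Pool.Agent.Helper28.RS

variable {m w : ℕ}

/-- the leaf of a vertex of the amalgam -/
def lfA (a : Fin w ⊕ (Finset (Fin w) × Fin m)) : Finset (Fin w) :=
  match a with
  | Sum.inl _ => ∅
  | Sum.inr x => x.1

/-- the position of a vertex of the amalgam -/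
def psA (v0 : Fin m) (a : Fin w ⊕ (Finset (Fin w) × Fin m)) : Fin m :=
  match a with
  | Sum.inl _ => v0
  | Sum.inr x => x.2

theorem exists_trace {H : SimpleGraph (Fin m)} {v0 : Fin m} {d : ℕ}
    {β : Finset (Fin w) → Fin m → Fin w} (htf : TF H)
    (hnb : ∀ u, ∃ v, H.Adj u v) (hβ : Bet H v0 d β)
    (f : Fin m → Fin w ⊕ (Finset (Fin w) × Fin m)) (hf : Copy H (amal H v0 d β) f) :
    ∃ (S : Finset (Fin m)) (lf : Fin m → Finset (Fin w)) (ps : Fin m → Fin m)
      (rt : Finset (Fin w) → Fin m → Fin m), Tr H v0 S lf ps rt := by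
  obtain ⟨hfi, hfa⟩ := hf
  obtain ⟨S, hS⟩ : ∃ S : Finset (Fin m), ∀ u, u ∈ S ↔ ∃ i, f u = Sum.inl i :=
    ⟨Finset.univ.filter (fun u => ∃ i, f u = Sum.inl i), fun u => by simp⟩
  obtain ⟨lf, hlf⟩ : ∃ lf : Fin m → Finset (Fin w), ∀ u, lf u = lfA (f u) := ⟨_, fun u => rfl⟩
  obtain ⟨ps, hps⟩ : ∃ ps : Fin m → Fin m, ∀ u, ps u = psA v0 (f u) := ⟨_, fun u => rfl⟩
  have hout : ∀ u, u ∉ S → f u = Sum.inr (lf u, ps u) := by
    intro u hu
    cases h : f u with
    | inl i => exact absurd ((hS u).2 ⟨i, h⟩) hu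
    | inr x =>
      rw [hlf, hps, h]
      rfl
  have hrt : ∀ (T : Finset (Fin w)) (s : Fin m), ∃ q : Fin m,
      (∃ q', H.Adj v0 q' ∧ f s = Sum.inl (β T q')) → H.Adj v0 q ∧ f s = Sum.inl (β T q) := by
    intro T s
    by_cases h : ∃ q', H.Adj v0 q' ∧ f s = Sum.inl (β T q')
    · obtain ⟨q', hq'⟩ := h
      exact ⟨q', fun _ => hq'⟩
    · exact ⟨v0, fun h' => absurd h' h⟩
  choose rt hrt using hrt
  have hind : ∀ x ∈ S, ∀ y ∈ S, ¬ H.Adj x y := by
    intro u hu v hv huv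
    obtain ⟨i, hi⟩ := (hS u).1 hu
    obtain ⟨j, hj⟩ := (hS v).1 hv
    have := hfa u v huv
    rw [hi, hj] at this
    exact amal_ll htf this
  have hrr : ∀ x y, x ∉ S → y ∉ S → H.Adj x y → lf x = lf y ∧ H.Adj (ps x) (ps y) := by
    intro x y hx hy hxy
    have h1 := hfa x y hxy
    rw [hout x hx, hout y hy] at h1
    have h2 := amal_rr h1
    exact ⟨h2.1, h2.2.2.1⟩
  have hnr : ∀ x, x ∉ S → (lf x).card = d ∧ ps x ≠ v0 ∧ ¬ H.Adj v0 (ps x) := by
    intro x hx
    obtain ⟨y, hy⟩ := hnb x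
    have h1 := hfa x y hy
    rw [hout x hx] at h1
    have h2 := amal_nbr hβ h1
    exact ⟨h2.1, h2.2.1, h2.2.2.1⟩
  have hrl : ∀ x s, x ∉ S → s ∈ S → H.Adj x s → H.Adj v0 (rt (lf x) s) ∧
      f s = Sum.inl (β (lf x) (rt (lf x) s)) ∧ H.Adj (ps x) (rt (lf x) s) := by
    intro x s hx hs hxs
    obtain ⟨i, hi⟩ := (hS s).1 hs
    have h1 := hfa x s hxs
    rw [hout x hx, hi] at h1
    obtain ⟨h2, h3, h4, h5, q, h6, h7, h8⟩ := amal_rl hβ h1
    have h9 := hrt (lf x) s ⟨q, h6, by rw [hi, h7]⟩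
    refine ⟨h9.1, h9.2, ?_⟩
    have h10 : β (lf x) (rt (lf x) s) = β (lf x) q := by
      rw [h7]
      have h11 := h9.2
      rw [hi] at h11
      exact (Sum.inl.inj h11).symm
    rw [(hβ _ h2).2.1 _ _ h9.1 h6 h10]
    exact h8
  refine ⟨S, lf, ps, rt, hind, fun x y hx hy h => (hrr x y hx hy h).1,
    fun x hx => (hnr x hx).2.1, fun x hx => (hnr x hx).2.2, ?_,
    fun x y hx hy h => (hrr x y hx hy h).2, fun x s hx hs h => (hrl x s hx hs h).1,
    fun x s hx hs h => (hrl x s hx hs h).2.2, ?_, ?_, ?_⟩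
  · intro x y hx hy hl hp
    apply hfi
    rw [hout x hx, hout y hy, hl, hp]
  · intro x y s s' hx hy hl hs hs' hxs hys' h
    apply hfi
    rw [(hrl x s hx hs hxs).2.1, (hrl y s' hy hs' hys').2.1, ← hl, h]
  · intro x hx
    by_contra hcon
    push Not at hcon
    apply not_one_branch (H := H) (v0 := v0) (β := β) f hfi (lf x)
    intro u
    by_cases hu : u ∈ S
    · obtain ⟨v, hv⟩ := hnb u
      have hvS : v ∉ S := fun h => hind u hu v h hv
      have h1 := hrl v u hvS hu hv.symm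
      rw [hcon v hvS] at h1
      refine ⟨rt (lf x) u, h1.1.ne', ?_⟩
      unfold gm
      rw [if_pos h1.1, h1.2.1]
    · refine ⟨ps u, (hnr u hu).2.1, ?_⟩
      unfold gm
      rw [if_neg (hnr u hu).2.2, hout u hu, hcon u hu]
  · obtain ⟨v, hv⟩ := hnb v0
    by_cases h : v0 ∈ S
    · exact ⟨v, fun h' => hind v0 h v h' hv⟩
    · exact ⟨v0, h⟩

/-- the free amalgam of copies of `H - v0` contains no copy of `H` -/
theorem no4_free (H : SimpleGraph (Fin m)) (htf : TF H) (hδ : 2 ≤ H.minDegree)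
    (v0 : Fin m) (hv0 : H.degree v0 = H.minDegree)
    (hno : ∀ z, z ≠ v0 → ∀ a b, H.Adj v0 a → H.Adj v0 b → H.Adj z a → H.Adj z b → a = b)
    (hI : ¬ ∃ I : Finset (Fin m), (∀ x ∈ I, ∀ y ∈ I, ¬ H.Adj x y) ∧
      I.card = 2 * (H.minDegree - 1) + 1 ∧ ∀ u, H.Adj v0 u → u ∈ I)
    (β : Finset (Fin w) → Fin m → Fin w) (hβ : Bet H v0 H.minDegree β) :
    ¬ ∃ f, Copy H (amal H v0 H.minDegree β) f := by
  rintro ⟨f, hf⟩
  have hN : ∀ x, Finset.univ.filter (fun u => H.Adj x u) = H.neighborFinset x := by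
    intro x
    ext u
    simp
  have hdeg : ∀ x, H.minDegree ≤ (Finset.univ.filter (fun u => H.Adj x u)).card := by
    intro x
    rw [hN, SimpleGraph.card_neighborFinset_eq_degree]
    exact H.minDegree_le_degree x
  have hnb : ∀ u, ∃ v, H.Adj u v := by
    intro u
    have h2 : 0 < (Finset.univ.filter (fun v => H.Adj u v)).card := by
      have := hdeg u
      omega
    obtain ⟨v, hv⟩ := Finset.card_pos.1 h2
    exact ⟨v, (Finset.mem_filter.1 hv).2⟩
  obtain ⟨S, lf, ps, rt, hT⟩ := exists_trace htf hnb hβ f hf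
  refine hT.false (d := H.minDegree) ⟨htf, hno, hdeg, fun x => ?_⟩
  by_contra hcon
  push Not at hcon
  obtain ⟨A, hA, hAc⟩ := Finset.exists_subset_card_eq
    (show H.minDegree - 1 ≤ (Finset.univ.filter (fun u => H.Adj x u ∧ Far H v0 u)).card by omega)
  have hAm : ∀ u ∈ A, H.Adj x u ∧ Far H v0 u := fun u hu => (Finset.mem_filter.1 (hA hu)).2
  apply hI
  refine ⟨H.neighborFinset v0 ∪ A, ?_, ?_, ?_⟩
  · intro a ha b hb hab
    rw [Finset.mem_union, SimpleGraph.mem_neighborFinset] at ha hb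
    rcases ha with ha | ha
    · rcases hb with hb | hb
      · exact htf v0 a b ha hab hb
      · exact (hAm b hb).2.2.2 a ha hab.symm
    · rcases hb with hb | hb
      · exact (hAm a ha).2.2.2 b hb hab
      · exact htf x a b (hAm a ha).1 hab (hAm b hb).1
  · rw [Finset.card_union_of_disjoint, SimpleGraph.card_neighborFinset_eq_degree, hv0, hAc]
    · omega
    · rw [Finset.disjoint_left]
      intro a ha ha'
      rw [SimpleGraph.mem_neighborFinset] at ha
      exact (hAm a ha').2.2.1 ha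
  · intro u hu
    rw [Finset.mem_union, SimpleGraph.mem_neighborFinset]
    exact Or.inl hu

end Pool.Agent.Helper58.R4
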