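import Pool.Agent.Helper28.RS.Main
import Pool.Agent.Helper28.RS.Ind
import Pool.Agent.Helper59.RS3.HS
import Pool.Agent.Helper58.R4.Link

/-!
# MP_7ef5a1_co: the main theorems
-/

set_option autoImplicit false
open Classical

namespace Pool.Agent.Helper58.R4

open Pool.Agent.Helper28.RS
open Pool.Agent.Helper77.SND (Crit st_FIN st_GLUE st_SEP3 st_HS)
open Pool.Agent.Helper58.RS (DSet)

/-- a vertex of minimum degree whose neighbourhood lies in a large independent set -/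
theorem main_ind {m : ℕ} (H : SimpleGraph (Fin m)) (hm : 4 ≤ m)
    (h3 : ∀ S : Finset (Fin m), S.card ≤ 2 → (H.induce {v | v ∉ S}).Connected)
    (v0 : Fin m) (hv0 : H.degree v0 = H.minDegree) (I : Finset (Fin m))
    (hI : ∀ x ∈ I, ∀ y ∈ I, ¬ H.Adj x y) (hc : I.card = 2 * (H.minDegree - 1) + 1)
    (hN : ∀ u, H.Adj v0 u → u ∈ I) :
    sInf (DSet H) = 2 * (H.minDegree - 1) + 1 := by
  have hC := st_SEP3 m H ⟨hm, h3⟩
  have hδ := min_pos3 H hm h3
  exact st_FIN st_GLUE m H hC (force_all (st_HS Pool.Agent.Helper77.SND.st_TWO) H hC)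
    (crit_of_indep H (by omega) v0 hv0 I hI hc hN)

/-- a vertex of minimum degree on no cycle of length four -/
theorem main_no4 {m : ℕ} (H : SimpleGraph (Fin m)) (hm : 4 ≤ m)
    (h3 : ∀ S : Finset (Fin m), S.card ≤ 2 → (H.induce {v | v ∉ S}).Connected)
    (htf : H.CliqueFree 3) (v0 : Fin m) (hv0 : H.degree v0 = H.minDegree)
    (hno : ∀ z, z ≠ v0 → ∀ a b, H.Adj v0 a → H.Adj v0 b → H.Adj z a → H.Adj z b → a = b) :
    sInf (DSet H) = 2 * (H.minDegree - 1) + 1 := by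
  have hC := st_SEP3 m H ⟨hm, h3⟩
  have hδ := min_pos3 H hm h3
  have htf' := TF_of_cliqueFree H htf
  by_cases hI : ∃ I : Finset (Fin m), (∀ x ∈ I, ∀ y ∈ I, ¬ H.Adj x y) ∧
      I.card = 2 * (H.minDegree - 1) + 1 ∧ ∀ u, H.Adj v0 u → u ∈ I
  · obtain ⟨I, h1, h2, h4⟩ := hI
    exact main_ind H hm h3 v0 hv0 I h1 h2 h4
  · exact st_FIN st_GLUE m H hC (force_all (st_HS Pool.Agent.Helper77.SND.st_TWO) H hC)
      (crit_of_amal H htf' ⟨v0, hv0, fun β hβ => no4_free H htf' (by omega) v0 hv0 hno hI β hβ⟩)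

end Pool.Agent.Helper58.R4
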