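import Pool.Agent.Helper58.R4.Main
import Pool.Agent.Helper58.R4.Ind

/-!
# MP_7ef5a1_co: a neighbourhood in a maximum independent set
-/

set_option autoImplicit false
open Classical

namespace Pool.Agent.Helper58.R4

open Pool.Agent.Helper28.RS
open Pool.Agent.Helper77.SND (Crit st_FIN st_GLUE st_SEP3 st_HS)
open Pool.Agent.Helper58.RS (DSet)

/-- a vertex of minimum degree whose neighbourhood lies in an independent set which is maximum or
has at least `2 δ - 1` vertices -/
theorem main_max {m : ℕ} (H : SimpleGraph (Fin m)) (hm : 4 ≤ m)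
    (h3 : ∀ S : Finset (Fin m), S.card ≤ 2 → (H.induce {v | v ∉ S}).Connected)
    (v0 : Fin m) (hv0 : H.degree v0 = H.minDegree) (I : Finset (Fin m))
    (hI : ∀ x ∈ I, ∀ y ∈ I, ¬ H.Adj x y) (hN : ∀ u, H.Adj v0 u → u ∈ I)
    (hmax : 2 * (H.minDegree - 1) + 1 ≤ I.card ∨
      ∀ J : Finset (Fin m), (∀ x ∈ J, ∀ y ∈ J, ¬ H.Adj x y) → J.card ≤ I.card) :
    sInf (DSet H) = 2 * (H.minDegree - 1) + 1 := by
  have hC := st_SEP3 m H ⟨hm, h3⟩
  have hδ := min_pos3 H hm h3
  refine st_FIN st_GLUE m H hC (force_all (st_HS Pool.Agent.Helper77.SND.st_TWO) H hC) ?_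
  by_cases hc : 2 * (H.minDegree - 1) + 1 ≤ I.card
  · have hNI : H.neighborFinset v0 ⊆ I := by
      intro x hx
      exact hN x ((SimpleGraph.mem_neighborFinset _ _ _).1 hx)
    have hNc : (H.neighborFinset v0).card = H.minDegree := by
      rw [SimpleGraph.card_neighborFinset_eq_degree, hv0]
    obtain ⟨I', h1, h2, h4⟩ := Finset.exists_subsuperset_card_eq hNI
      (show (H.neighborFinset v0).card ≤ 2 * (H.minDegree - 1) + 1 by omega) hc
    exact crit_of_ind H (by omega) v0 hv0 I' (fun x hx y hy => hI x (h2 hx) y (h2 hy)) h4.le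
      (Or.inl h4) (fun u hu => h1 ((SimpleGraph.mem_neighborFinset _ _ _).2 hu))
  · refine crit_of_ind H (by omega) v0 hv0 I hI (by omega) ?_ hN
    rcases hmax with h | h
    · exact absurd h hc
    · exact Or.inr h

end Pool.Agent.Helper58.R4
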