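import Pool.Agent.Helper58.R4.Link

/-!
# MP_7ef5a1_co: the neighbourhood of a vertex of minimum degree in a graph of large order
-/

set_option autoImplicit false
open Classical

namespace Pool.Agent.Helper58.R4

open Pool.Agent.Helper28.RS

variable {m : ℕ}

theorem indep_union (H : SimpleGraph (Fin m)) (htf : TF H) (v0 : Fin m)
    (hv0 : H.degree v0 = H.minDegree) (hδ : 1 ≤ H.minDegree) (A : Finset (Fin m))
    (hA : ∀ x ∈ A, ∀ y ∈ A, ¬ H.Adj x y) (hF : ∀ x ∈ A, Far H v0 x)
    (hc : H.minDegree - 1 ≤ A.card) :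
    ∃ I : Finset (Fin m), (∀ x ∈ I, ∀ y ∈ I, ¬ H.Adj x y) ∧ (∀ u, H.Adj v0 u → u ∈ I) ∧
      2 * (H.minDegree - 1) + 1 ≤ I.card := by
  refine ⟨H.neighborFinset v0 ∪ A, ?_, ?_, ?_⟩
  · intro a ha b hb hab
    rw [Finset.mem_union, SimpleGraph.mem_neighborFinset] at ha hb
    rcases ha with ha | ha
    · rcases hb with hb | hb
      · exact htf v0 a b ha hab hb
      · exact (hF b hb).2.2 a ha hab.symm
    · rcases hb with hb | hb
      · exact (hF a ha).2.2 b hb hab
      · exact hA a ha b hb hab
  · intro u hu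
    rw [Finset.mem_union, SimpleGraph.mem_neighborFinset]
    exact Or.inl hu
  · rw [Finset.card_union_of_disjoint, SimpleGraph.card_neighborFinset_eq_degree, hv0]
    · omega
    · rw [Finset.disjoint_left]
      intro a ha ha'
      rw [SimpleGraph.mem_neighborFinset] at ha
      exact (hF a ha').2.1 ha

/-- in a triangle-free graph with more than `1 + δ Δ + (δ - 1) (δ - 2)` vertices the neighbourhood
of every vertex of minimum degree lies in an independent set with `2 δ - 1` vertices -/
theorem big_ind (H : SimpleGraph (Fin m)) (htf : TF H) (v0 : Fin m)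
    (hv0 : H.degree v0 = H.minDegree) (hδ : 2 ≤ H.minDegree)
    (hbig : 1 + H.minDegree * H.maxDegree + (H.minDegree - 1) * (H.minDegree - 2) < m) :
    ∃ I : Finset (Fin m), (∀ x ∈ I, ∀ y ∈ I, ¬ H.Adj x y) ∧ (∀ u, H.Adj v0 u → u ∈ I) ∧
      2 * (H.minDegree - 1) + 1 ≤ I.card := by
  by_contra hcon
  obtain ⟨U, hU⟩ : ∃ U : Finset (Fin m), ∀ u, u ∈ U ↔ Far H v0 u :=
    ⟨Finset.univ.filter (fun u => Far H v0 u), fun u => by simp⟩
  have hno : ∀ A : Finset (Fin m), (∀ x ∈ A, ∀ y ∈ A, ¬ H.Adj x y) → A ⊆ U →
      A.card ≤ H.minDegree - 2 := by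
    intro A hA hAU
    by_contra hc
    exact hcon (indep_union H htf v0 hv0 (by omega) A hA (fun x hx => (hU x).1 (hAU hx))
      (by omega))
  obtain ⟨A, hA, hmax⟩ := Finset.exists_max_image
    (U.powerset.filter (fun A => ∀ x ∈ A, ∀ y ∈ A, ¬ H.Adj x y)) Finset.card
    ⟨∅, by simp⟩
  rw [Finset.mem_filter, Finset.mem_powerset] at hA
  obtain ⟨hAU, hAi⟩ := hA
  have hAc := hno A hAi hAU
  -- the neighbours in `U` of a vertex
  have hdeg : ∀ a, (U ∩ H.neighborFinset a).card ≤ H.minDegree - 2 := by
    intro a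
    refine hno _ ?_ Finset.inter_subset_left
    intro x hx y hy
    rw [Finset.mem_inter, SimpleGraph.mem_neighborFinset] at hx hy
    intro hxy
    exact htf a x y hx.2 hxy hy.2
  have hcov : U ⊆ A ∪ A.biUnion (fun a => U ∩ H.neighborFinset a) := by
    intro u hu
    rw [Finset.mem_union, Finset.mem_biUnion]
    by_cases huA : u ∈ A
    · exact Or.inl huA
    right
    by_contra hne
    push Not at hne
    have h1 : ∀ a ∈ A, ¬ H.Adj a u := by
      intro a ha hau
      exact hne a ha (Finset.mem_inter.2 ⟨hu, (SimpleGraph.mem_neighborFinset _ _ _).2 hau⟩)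
    have h2 := hmax (insert u A) (by
      rw [Finset.mem_filter, Finset.mem_powerset]
      refine ⟨Finset.insert_subset hu hAU, ?_⟩
      intro x hx y hy
      rw [Finset.mem_insert] at hx hy
      rcases hx with rfl | hx
      · rcases hy with rfl | hy
        · exact H.loopless.irrefl _
        · exact fun h => h1 y hy h.symm
      · rcases hy with rfl | hy
        · exact h1 x hx
        · exact hAi x hx y hy)
    rw [Finset.card_insert_of_notMem huA] at h2
    omega
  have hUc : U.card ≤ (H.minDegree - 1) * (H.minDegree - 2) := by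
    have h1 := (Finset.card_le_card hcov).trans (Finset.card_union_le _ _)
    have h2 : (A.biUnion (fun a => U ∩ H.neighborFinset a)).card ≤ A.card * (H.minDegree - 2) :=
      Finset.card_biUnion_le_card_mul _ _ _ (fun a _ => hdeg a)
    have h3 : A.card * (H.minDegree - 2) + A.card = A.card * (H.minDegree - 1) := by
      obtain ⟨k, hk⟩ : ∃ k, H.minDegree = k + 2 := ⟨H.minDegree - 2, by omega⟩
      rw [hk]
      simp only [Nat.add_sub_cancel, show k + 2 - 1 = k + 1 by omega]
      ring
    have h4 : A.card * (H.minDegree - 1) ≤ (H.minDegree - 2) * (H.minDegree - 1) :=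
      Nat.mul_le_mul_right _ hAc
    rw [Nat.mul_comm (H.minDegree - 1) (H.minDegree - 2)]
    omega
  have hall : (Finset.univ : Finset (Fin m)) ⊆ (U ∪ {v0}) ∪
      ((H.neighborFinset v0) ∪
        (H.neighborFinset v0).biUnion (fun y => (H.neighborFinset y).erase v0)) := by
    intro x _
    by_cases hx0 : x = v0
    · rw [hx0]
      simp
    by_cases hxN : H.Adj v0 x
    · simp [hxN]
    by_cases hxY : ∃ y, H.Adj v0 y ∧ H.Adj x y
    · obtain ⟨y, hy, hxy⟩ := hxY
      refine Finset.mem_union_right _ (Finset.mem_union_right _ ?_)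
      rw [Finset.mem_biUnion]
      refine ⟨y, (SimpleGraph.mem_neighborFinset _ _ _).2 hy, ?_⟩
      rw [Finset.mem_erase, SimpleGraph.mem_neighborFinset]
      exact ⟨hx0, hxy.symm⟩
    · push Not at hxY
      refine Finset.mem_union_left _ (Finset.mem_union_left _ ((hU x).2 ⟨hx0, hxN, hxY⟩))
  have hYc : ((H.neighborFinset v0).biUnion (fun y => (H.neighborFinset y).erase v0)).card ≤
      H.minDegree * (H.maxDegree - 1) := by
    have h1 := Finset.card_biUnion_le_card_mul (H.neighborFinset v0)
      (fun y => (H.neighborFinset y).erase v0) (H.maxDegree - 1) (by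
        intro y hy
        rw [SimpleGraph.mem_neighborFinset] at hy
        rw [Finset.card_erase_of_mem ((SimpleGraph.mem_neighborFinset _ _ _).2 hy.symm),
          SimpleGraph.card_neighborFinset_eq_degree]
        have := H.degree_le_maxDegree y
        omega)
    rw [SimpleGraph.card_neighborFinset_eq_degree, hv0] at h1
    exact h1
  have h1 := (Finset.card_le_card hall).trans ((Finset.card_union_le _ _).trans
    (Nat.add_le_add (Finset.card_union_le _ _) (Finset.card_union_le _ _)))
  rw [Finset.card_univ, Fintype.card_fin, Finset.card_singleton,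
    SimpleGraph.card_neighborFinset_eq_degree, hv0] at h1
  have hΔ : 1 ≤ H.maxDegree := by
    have := H.degree_le_maxDegree v0
    omega
  have h2 : H.minDegree + H.minDegree * (H.maxDegree - 1) = H.minDegree * H.maxDegree := by
    obtain ⟨k, hk⟩ : ∃ k, H.maxDegree = k + 1 := ⟨H.maxDegree - 1, by omega⟩
    rw [hk, Nat.add_sub_cancel]
    ring
  omega

end Pool.Agent.Helper58.R4
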